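import Pool.Agent.H110.Telgarsky

/-! # Every Čech-complete space is strongly Telgársky pseudocomplete

Let `X` be a Tychonoff space which is a `G_δ` subset of its Stone-Čech compactification. Then `X`
has a base of nonempty open sets such that every nested sequence of members of the base has
nonempty intersection. In particular this holds for every Čech-complete metrizable space. -/

set_option autoImplicit false

namespace Pool.Agent.Results.MP_e752eb_gt.CechComplete

open Pool.Agent.H110.Telgarsky

universe u

theorem result (X : Type u) [TopologicalSpace X] (h : IsCechComplete X) :
    StronglyTelgarskyPseudocomplete X :=
  stronglyTelgarsky_of_cechComplete h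

end Pool.Agent.Results.MP_e752eb_gt.CechComplete
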